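import Pool.Agent.Helper14.CV.StA

/-!
# Module A1b of project CV (MP_3c9520_nt): exponential decay of the primitive
-/

set_option autoImplicit false

open UpperHalfPlane CongruenceSubgroup
open scoped MatrixGroups

namespace Pool.Agent.Helper10.CV

open Pool.Agent.Helper14.CV

private theorem norm_ex (m : ℕ) (z : ℂ) :
    ‖Complex.exp (2 * Real.pi * Complex.I * m * z)‖ = Real.exp (-(2 * Real.pi * (m * z.im))) := by
  rw [Complex.norm_exp]
  congr 1
  simp
  ring

theorem hA1b (h1 : StA1) : StA1b := by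
  intro N hN f
  obtain ⟨hs, -, -⟩ := h1 N hN f Complex.I (by simp)
  have hn := hs.norm
  refine ⟨(∑' m : ℕ, ‖fc f m / m * Complex.exp (2 * Real.pi * Complex.I * m * Complex.I)‖) *
    Real.exp (2 * Real.pi), fun z hz => ?_⟩
  have hz0 : 0 < z.im := lt_of_lt_of_le one_pos hz
  obtain ⟨hsz, -, -⟩ := h1 N hN f z hz0
  have hnz := hsz.norm
  have hterm : ∀ m : ℕ, ‖fc f m / m * Complex.exp (2 * Real.pi * Complex.I * m * z)‖ ≤
      ‖fc f m / m * Complex.exp (2 * Real.pi * Complex.I * m * Complex.I)‖ *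
        (Real.exp (2 * Real.pi) * Real.exp (-2 * Real.pi * z.im)) := by
    intro m
    rcases Nat.eq_zero_or_pos m with hm | hm
    · rw [hm]
      simp
    · rw [norm_mul, norm_mul, norm_ex, norm_ex, Complex.I_im, mul_assoc ‖fc f m / (m : ℂ)‖]
      refine mul_le_mul_of_nonneg_left ?_ (norm_nonneg _)
      rw [← Real.exp_add, ← Real.exp_add]
      apply Real.exp_le_exp.2
      have h2 : (1 : ℝ) ≤ m := by exact_mod_cast hm
      have h3 : 0 ≤ ((m : ℝ) - 1) * (z.im - 1) :=
        mul_nonneg (by linarith) (by linarith)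
      have h4 : 0 ≤ Real.pi * (((m : ℝ) - 1) * (z.im - 1)) :=
        mul_nonneg Real.pi_pos.le h3
      nlinarith [h4]
  unfold Fp
  calc ‖∑' m : ℕ, fc f m / m * Complex.exp (2 * Real.pi * Complex.I * m * z)‖
      ≤ ∑' m : ℕ, ‖fc f m / m * Complex.exp (2 * Real.pi * Complex.I * m * z)‖ :=
        norm_tsum_le_tsum_norm hnz
    _ ≤ ∑' m : ℕ, ‖fc f m / m * Complex.exp (2 * Real.pi * Complex.I * m * Complex.I)‖ *
        (Real.exp (2 * Real.pi) * Real.exp (-2 * Real.pi * z.im)) :=
        hnz.tsum_le_tsum hterm (hn.mul_right _)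
    _ = (∑' m : ℕ, ‖fc f m / m * Complex.exp (2 * Real.pi * Complex.I * m * Complex.I)‖) *
        (Real.exp (2 * Real.pi) * Real.exp (-2 * Real.pi * z.im)) := tsum_mul_right
    _ = _ := by ring

end Pool.Agent.Helper10.CV
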