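import Pool.Agent.Helper14.CV.StA

/-!
# Module N1 of project CV (MP_3c9520_nt): representatives of the Hecke operator
-/

set_option autoImplicit false

namespace Pool.Agent.Helper10.CV

open Pool.Agent.Helper14.CV

private def rep (l : ℕ) (j : ℕ) : Matrix (Fin 2) (Fin 2) ℤ :=
  if j < l then !![1, (j : ℤ); 0, (l : ℤ)] else !![(l : ℤ), 0; 0, 1]

private theorem rep_det (l j : ℕ) : (rep l j).det = l := by
  unfold rep
  split_ifs
  · rw [Matrix.det_fin_two_of]
    ring
  · rw [Matrix.det_fin_two_of]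
    ring

private theorem ex_one {N l : ℕ} (hl : l.Prime) {a b c d j : ℤ} (hdet : a * d - b * c = l)
    (hN : (N : ℤ) ∣ c) (h1 : (l : ℤ) ∣ b - a * j) (h2 : (l : ℤ) ∣ d - c * j) :
    ∃ γ : Matrix (Fin 2) (Fin 2) ℤ, γ.det = 1 ∧ (N : ℤ) ∣ γ 1 0 ∧
      !![a, b; c, d] = γ * !![1, j; 0, (l : ℤ)] := by
  obtain ⟨x, hx⟩ := h1
  obtain ⟨y, hy⟩ := h2
  have hl0 : (l : ℤ) ≠ 0 := by exact_mod_cast hl.ne_zero
  refine ⟨!![a, x; c, y], ?_, ?_, ?_⟩
  · rw [Matrix.det_fin_two_of]
    apply mul_left_cancel₀ hl0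
    linear_combination hdet - a * hy + c * hx
  · exact hN
  · ext u v
    fin_cases u <;> fin_cases v
    · simp [Matrix.mul_apply, Fin.sum_univ_two]
    · simp [Matrix.mul_apply, Fin.sum_univ_two]
      linear_combination hx
    · simp [Matrix.mul_apply, Fin.sum_univ_two]
    · simp [Matrix.mul_apply, Fin.sum_univ_two]
      linear_combination hy

private theorem ex_rep {N l : ℕ} (hl : l.Prime) (hlN : ¬ l ∣ N)
    (A : Matrix (Fin 2) (Fin 2) ℤ) (hdet : A.det = l) (hN : (N : ℤ) ∣ A 1 0) :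
    ∃ j : Fin (l + 1), ∃ γ : Matrix (Fin 2) (Fin 2) ℤ, γ.det = 1 ∧ (N : ℤ) ∣ γ 1 0 ∧
      A = γ * rep l (j : ℕ) := by
  have hF : Fact l.Prime := ⟨hl⟩
  have hl0 : (l : ℤ) ≠ 0 := by exact_mod_cast hl.ne_zero
  obtain ⟨a, b, c, d, rfl⟩ : ∃ a b c d : ℤ, A = !![a, b; c, d] :=
    ⟨A 0 0, A 0 1, A 1 0, A 1 1, Matrix.eta_fin_two A⟩
  rw [Matrix.det_fin_two_of] at hdet
  have hN' : (N : ℤ) ∣ c := hN
  have hz : (a : ZMod l) * d = b * c := by
    have h1 := congrArg (fun z : ℤ => (z : ZMod l)) hdet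
    push_cast at h1
    rw [ZMod.natCast_self] at h1
    exact sub_eq_zero.1 h1
  have hmk : ∀ r : ZMod l, (b : ZMod l) = a * r → (d : ZMod l) = c * r →
      ∃ j : Fin (l + 1), ∃ γ : Matrix (Fin 2) (Fin 2) ℤ, γ.det = 1 ∧ (N : ℤ) ∣ γ 1 0 ∧
        !![a, b; c, d] = γ * rep l (j : ℕ) := by
    intro r h1 h2
    have hr : r.val < l := ZMod.val_lt r
    refine ⟨⟨r.val, by omega⟩, ?_⟩
    have e : rep l ((⟨r.val, by omega⟩ : Fin (l + 1)) : ℕ) = !![1, (r.val : ℤ); 0, (l : ℤ)] := by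
      unfold rep
      rw [if_pos hr]
    rw [e]
    apply ex_one hl hdet hN'
    · rw [← ZMod.intCast_zmod_eq_zero_iff_dvd _ l]
      push_cast
      rw [ZMod.natCast_zmod_val, h1, sub_self]
    · rw [← ZMod.intCast_zmod_eq_zero_iff_dvd _ l]
      push_cast
      rw [ZMod.natCast_zmod_val, h2, sub_self]
  by_cases ha : (a : ZMod l) = 0
  · by_cases hc : (c : ZMod l) = 0
    · rw [ZMod.intCast_zmod_eq_zero_iff_dvd] at ha hc
      obtain ⟨x, hx⟩ := ha
      obtain ⟨y, hy⟩ := hc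
      refine ⟨⟨l, by omega⟩, !![x, b; y, d], ?_, ?_, ?_⟩
      · rw [Matrix.det_fin_two_of]
        apply mul_left_cancel₀ hl0
        linear_combination hdet - d * hx + b * hy
      · have h1 : IsCoprime (N : ℤ) (l : ℤ) := by
          rw [Nat.isCoprime_iff_coprime]
          exact ((Nat.Prime.coprime_iff_not_dvd hl).2 hlN).symm
        have h2 : (N : ℤ) ∣ l * y := by
          rw [← hy]
          exact hN'
        exact h1.dvd_of_dvd_mul_left h2
      · have e : rep l ((⟨l, by omega⟩ : Fin (l + 1)) : ℕ) = !![(l : ℤ), 0; 0, 1] := by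
          unfold rep
          rw [if_neg (by simp)]
        rw [e]
        ext u v
        fin_cases u <;> fin_cases v
        · simp [Matrix.mul_apply, Fin.sum_univ_two]
          linear_combination hx
        · simp [Matrix.mul_apply, Fin.sum_univ_two]
        · simp [Matrix.mul_apply, Fin.sum_univ_two]
          linear_combination hy
        · simp [Matrix.mul_apply, Fin.sum_univ_two]
    · have hb : (b : ZMod l) = 0 := by
        rw [ha, zero_mul] at hz
        rcases mul_eq_zero.1 hz.symm with h | h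
        · exact h
        · exact absurd h hc
      apply hmk ((d : ZMod l) * (c : ZMod l)⁻¹)
      · rw [ha, hb, zero_mul]
      · rw [mul_comm (c : ZMod l), inv_mul_cancel_right₀ hc]
  · apply hmk ((b : ZMod l) * (a : ZMod l)⁻¹)
    · rw [mul_comm (a : ZMod l), inv_mul_cancel_right₀ ha]
    · apply mul_left_cancel₀ ha
      rw [hz]
      field_simp

theorem hN1 : StN1 := by
  intro N l hl hlN δ hdet hN hdis
  choose j γ hγ1 hγ2 hγ3 using fun P => ex_rep hl hlN (δ P) (hdet P) (hN P)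
  have hinj : Function.Injective j := by
    intro P P' hPP
    by_contra hne
    apply hdis P P' hne
    intro u v
    have h1 : δ P * (δ P').adjugate = (l : ℤ) • (γ P * (γ P').adjugate) := by
      rw [hγ3 P, hγ3 P', hPP, Matrix.adjugate_mul_distrib, Matrix.mul_assoc,
        ← Matrix.mul_assoc (rep l (j P' : ℕ)), Matrix.mul_adjugate, rep_det, Matrix.smul_mul,
        Matrix.one_mul, Matrix.mul_smul]
    rw [h1, Matrix.smul_apply, smul_eq_mul]
    exact dvd_mul_right _ _
  refine ⟨Equiv.ofBijective j ((Finite.injective_iff_bijective).1 hinj), fun P => ?_⟩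
  exact ⟨γ P, hγ1 P, hγ2 P, hγ3 P⟩

end Pool.Agent.Helper10.CV
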