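import Pool.Agent.Helper14.CV.StD

/-!
# Module Sub of project CV (MP_3c9520_nt): substitutions lower the degree
-/

set_option autoImplicit false

namespace Pool.Agent.Helper10.CV

open Pool.Agent.Helper14.CV

/-! ### swapping the variables -/

private def sw {q q' : ℕ} (F : Fn q q') : Fn q' q := fun x y => F y x

private theorem dx_sw {q q' : ℕ} (i : ℕ) : ∀ F : Fn q q',
    ((dx ^ i : Module.End (ZMod 2) (Fn q' q)) (sw F)) =
      sw ((dy ^ i : Module.End (ZMod 2) (Fn q q')) F) := by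
  induction i with
  | zero => intro F; rfl
  | succ i ih =>
    intro F
    rw [pow_succ, pow_succ, Module.End.mul_apply, Module.End.mul_apply, ← ih]
    rfl

private theorem dy_sw {q q' : ℕ} (i : ℕ) : ∀ F : Fn q q',
    ((dy ^ i : Module.End (ZMod 2) (Fn q' q)) (sw F)) =
      sw ((dx ^ i : Module.End (ZMod 2) (Fn q q')) F) := by
  induction i with
  | zero => intro F; rfl
  | succ i ih =>
    intro F
    rw [pow_succ, pow_succ, Module.End.mul_apply, Module.End.mul_apply, ← ih]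
    rfl

private theorem sw_mem (h0 : StLow0) {r s : ℕ} {d : ℤ} {F : Fn (2 ^ r) (2 ^ s)}
    (hF : F ∈ (Wd d : Submodule (ZMod 2) (Fn (2 ^ r) (2 ^ s)))) :
    sw F ∈ (Wd d : Submodule (ZMod 2) (Fn (2 ^ s) (2 ^ r))) := by
  obtain ⟨-, -, -, -, -, -, -, hc, -⟩ := h0 r s
  intro i j hij
  have hc' : Commute (dx : Module.End (ZMod 2) (Fn (2 ^ r) (2 ^ s))) dy := hc
  rw [Module.End.mul_apply, dy_sw, dx_sw, ← Module.End.mul_apply, ← (hc'.pow_pow j i).eq,
    hF j i (by omega)]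
  rfl

/-! ### characteristic two -/

private theorem add_self {q q' : ℕ} (F : Fn q q') : F + F = 0 := by
  funext x y
  exact CharTwo.add_self_eq_zero (F x y)

private theorem end_add_self {q q' : ℕ} (T : Module.End (ZMod 2) (Fn q q')) : T + T = 0 := by
  apply LinearMap.ext
  intro F
  exact add_self (T F)

private theorem frob {q q' : ℕ} (k : ℕ) :
    ((1 + dy) ^ (2 ^ k) : Module.End (ZMod 2) (Fn q q')) = 1 + dy ^ (2 ^ k) := by
  induction k with
  | zero => rw [pow_zero, pow_one, pow_one]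
  | succ k ih =>
    rw [pow_succ 2 k, pow_mul, pow_mul, ih, pow_two, pow_two]
    have h1 : (1 + dy ^ (2 ^ k) : Module.End (ZMod 2) (Fn q q')) * (1 + dy ^ (2 ^ k)) =
        1 + (dy ^ (2 ^ k) + dy ^ (2 ^ k)) + dy ^ (2 ^ k) * dy ^ (2 ^ k) := by noncomm_ring
    rw [h1, end_add_self, add_zero]

private theorem shift {q q' : ℕ} (n : ℕ) : ∀ (F : Fn q q') (x : ZMod q) (y : ZMod q'),
    ((1 + dy) ^ n : Module.End (ZMod 2) (Fn q q')) F x y = F x (y + n) := by
  induction n with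
  | zero =>
    intro F x y
    rw [pow_zero, Nat.cast_zero, add_zero]
    rfl
  | succ n ih =>
    intro F x y
    rw [pow_succ, Module.End.mul_apply, ih]
    change F x (y + n) + (F x (y + n + 1) + F x (y + n)) = F x (y + ((n + 1 : ℕ) : ZMod q'))
    have h1 : (y + n + 1 : ZMod q') = y + ((n + 1 : ℕ) : ZMod q') := by
      push_cast
      ring
    rw [h1]
    have h2 := CharTwo.add_self_eq_zero (F x (y + n))
    linear_combination h2

private theorem newton {q q' : ℕ} (T : Module.End (ZMod 2) (Fn q q')) (u M : ℕ) (hu : u < M)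
    (F : Fn q q') (x : ZMod q) (y : ZMod q') :
    ((1 + T) ^ u) F x y = ∑ m ∈ Finset.range M, (u.choose m : ZMod 2) * (T ^ m) F x y := by
  have hc : Commute T 1 := Commute.one_right T
  rw [add_comm, hc.add_pow]
  have h1 : ∀ m ∈ Finset.range (u + 1), ((T ^ m * 1 ^ (u - m) * (u.choose m :
      Module.End (ZMod 2) (Fn q q'))) F x y) = (u.choose m : ZMod 2) * (T ^ m) F x y := by
    intro m _
    rw [one_pow, mul_one, Module.End.mul_apply, Module.End.natCast_apply, map_nsmul,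
      Pi.smul_apply, Pi.smul_apply, nsmul_eq_mul]
  rw [LinearMap.sum_apply, Finset.sum_apply, Finset.sum_apply, Finset.sum_congr rfl h1]
  apply Finset.sum_subset
  · intro m hm
    rw [Finset.mem_range] at hm ⊢
    omega
  · intro m _ hm
    rw [Finset.mem_range] at hm
    rw [Nat.choose_eq_zero_of_lt (by omega), Nat.cast_zero, zero_mul]

/-- the expansion -/
private theorem expand {q s : ℕ} (k : ℕ) (t : ZMod (2 ^ s)) (F : Fn q (2 ^ s)) (x : ZMod q)
    (y : ZMod (2 ^ s)) :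
    F x (y + 2 ^ k * t) = ∑ m ∈ Finset.range (2 ^ s), (t.val.choose m : ZMod 2) *
      ((dy ^ (2 ^ k * m) : Module.End (ZMod 2) (Fn q (2 ^ s))) F) x y := by
  have : NeZero (2 ^ s) := ⟨pow_ne_zero _ two_ne_zero⟩
  have h1 : (y + 2 ^ k * t : ZMod (2 ^ s)) = y + ((2 ^ k * t.val : ℕ) : ZMod (2 ^ s)) := by
    push_cast
    rw [ZMod.natCast_zmod_val]
  rw [h1, ← shift (2 ^ k * t.val) F x y, pow_mul, frob, newton _ _ _ (ZMod.val_lt t)]
  refine Finset.sum_congr rfl fun m _ => ?_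
  rw [pow_mul]

/-! ### binomial coefficients -/

private theorem choose_add (u i m : ℕ) (hm : m < 2 ^ i) :
    ((u + 2 ^ i).choose m : ZMod 2) = (u.choose m : ZMod 2) := by
  rw [Nat.add_choose_eq]
  push_cast
  rw [Finset.sum_eq_single (m, 0)]
  · simp
  · rintro ⟨a, b⟩ hab hne
    have hab' : a + b = m := by simpa using hab
    have hb : b ≠ 0 := by
      intro hb0
      apply hne
      have : a = m := by omega
      rw [this, hb0]
    have h1 : 2 ∣ (2 ^ i).choose b :=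
      Nat.Prime.dvd_choose_pow Nat.prime_two hb (by omega)
    have h2 : (((2 ^ i).choose b : ℕ) : ZMod 2) = 0 := (ZMod.natCast_eq_zero_iff _ _).2 h1
    change ((u.choose a : ℕ) : ZMod 2) * (((2 ^ i).choose b : ℕ) : ZMod 2) = 0
    rw [h2, mul_zero]
  · intro h
    exact absurd (by simp) h

private theorem choose_add_mul (u i m : ℕ) (hm : m < 2 ^ i) (n : ℕ) :
    ((u + 2 ^ i * n).choose m : ZMod 2) = (u.choose m : ZMod 2) := by
  induction n with
  | zero => simp
  | succ n ih =>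
    rw [mul_add, mul_one, ← add_assoc, choose_add _ _ _ hm, ih]

private theorem choose_mod {u v i m : ℕ} (hm : m < 2 ^ i) (h : u ≡ v [MOD 2 ^ i]) :
    (u.choose m : ZMod 2) = (v.choose m : ZMod 2) := by
  have h1 := Nat.mod_add_div u (2 ^ i)
  have h2 := Nat.mod_add_div v (2 ^ i)
  have h3 : u % 2 ^ i = v % 2 ^ i := h
  rw [← h1, ← h2, choose_add_mul _ _ _ hm, choose_add_mul _ _ _ hm, h3]

private theorem val_mod {s i : ℕ} (his : i ≤ s) {a b : ZMod (2 ^ s)}
    (h : (2 : ZMod (2 ^ s)) ^ i ∣ a - b) : a.val ≡ b.val [MOD 2 ^ i] := by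
  have : NeZero (2 ^ s) := ⟨pow_ne_zero _ two_ne_zero⟩
  have hd : 2 ^ i ∣ 2 ^ s := pow_dvd_pow 2 his
  obtain ⟨c, hc⟩ := h
  have h1 : ZMod.castHom hd (ZMod (2 ^ i)) a = ZMod.castHom hd (ZMod (2 ^ i)) b := by
    rw [← sub_eq_zero, ← map_sub, hc, map_mul, map_pow, map_ofNat]
    have h2 : ((2 : ZMod (2 ^ i)) ^ i) = 0 := by
      have := ZMod.natCast_self (2 ^ i)
      push_cast at this
      exact this
    rw [h2, zero_mul]
  rw [← ZMod.natCast_eq_natCast_iff, ZMod.natCast_val, ZMod.natCast_val]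
  exact h1

/-! ### the coefficient functions -/

private theorem coef_mem {q s : ℕ} (t : ZMod (2 ^ s) → ZMod (2 ^ s))
    (ht : ∀ (i : ℕ) (y y' : ZMod (2 ^ s)), (2 : ZMod (2 ^ s)) ^ i ∣ y - y' →
      (2 : ZMod (2 ^ s)) ^ i ∣ t y - t y') (m : ℕ) (hm1 : 1 ≤ m) (hm2 : m < 2 ^ s) :
    (fun _ y => (((t y).val.choose m : ℕ) : ZMod 2)) ∈
      (Wd (2 * m - 1) : Submodule (ZMod 2) (Fn q (2 ^ s))) := by
  obtain ⟨i, hi1, hi2⟩ : ∃ i, m < 2 ^ i ∧ 2 ^ i ≤ 2 * m := by
    refine ⟨Nat.log 2 m + 1, Nat.lt_pow_succ_log_self one_lt_two m, ?_⟩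
    rw [pow_succ]
    have := Nat.pow_log_le_self 2 (x := m) (by omega)
    omega
  have his : i ≤ s := by
    by_contra hcon
    have h1 : 2 ^ (s + 1) ≤ 2 ^ i := Nat.pow_le_pow_right (by norm_num) (by omega)
    rw [pow_succ] at h1
    omega
  intro a b hab
  rw [Module.End.mul_apply]
  by_cases hb : 2 ^ i ≤ b
  · -- `dy ^ b` kills it
    have h1 : (dy ^ (2 ^ i) : Module.End (ZMod 2) (Fn q (2 ^ s)))
        (fun _ y => (((t y).val.choose m : ℕ) : ZMod 2)) = 0 := by
      have h2 : (dy ^ (2 ^ i) : Module.End (ZMod 2) (Fn q (2 ^ s))) =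
          (1 + dy) ^ (2 ^ i) + 1 := by
        rw [frob]
        have h3 : (1 + dy ^ (2 ^ i) + 1 : Module.End (ZMod 2) (Fn q (2 ^ s))) =
            dy ^ (2 ^ i) + (1 + 1) := by abel
        rw [h3, end_add_self, add_zero]
      rw [h2]
      funext x y
      rw [LinearMap.add_apply, Pi.add_apply, Pi.add_apply, shift]
      change (((t (y + ((2 ^ i : ℕ) : ZMod (2 ^ s)))).val.choose m : ℕ) : ZMod 2) +
        (((t y).val.choose m : ℕ) : ZMod 2) = 0
      have h4 := ht i (y + ((2 ^ i : ℕ) : ZMod (2 ^ s))) y (by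
        rw [add_sub_cancel_left]
        push_cast
        exact dvd_rfl)
      rw [choose_mod hi1 (val_mod his h4)]
      exact CharTwo.add_self_eq_zero _
    have h2 : b = (b - 2 ^ i) + 2 ^ i := by omega
    rw [h2, pow_add, Module.End.mul_apply, h1, map_zero, map_zero]
  · -- `a ≥ 1`, and `dx` kills it
    have ha : a = (a - 1) + 1 := by omega
    have h1 : ∀ n : ℕ, ∀ g : ZMod (2 ^ s) → ZMod 2,
        ∃ g' : ZMod (2 ^ s) → ZMod 2, (dy ^ n : Module.End (ZMod 2) (Fn q (2 ^ s)))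
          (fun _ y => g y) = fun _ y => g' y := by
      intro n
      induction n with
      | zero => intro g; exact ⟨g, rfl⟩
      | succ n ih =>
        intro g
        obtain ⟨g', hg'⟩ := ih (fun y => g (y + 1) + g y)
        refine ⟨g', ?_⟩
        rw [pow_succ, Module.End.mul_apply]
        exact hg'
    obtain ⟨g', hg'⟩ := h1 b (fun y => (((t y).val.choose m : ℕ) : ZMod 2))
    rw [hg', ha, pow_succ, Module.End.mul_apply]
    have h2 : (dx : Module.End (ZMod 2) (Fn q (2 ^ s))) (fun _ y => g' y) = 0 := by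
      funext x y
      exact CharTwo.add_self_eq_zero (g' y)
    rw [h2, map_zero]

private theorem dy_pow_mem (h0 : StLow0) {r s : ℕ} {d : ℤ} (m : ℕ) : ∀ {F : Fn (2 ^ r) (2 ^ s)},
    F ∈ (Wd d : Submodule (ZMod 2) (Fn (2 ^ r) (2 ^ s))) →
    ((dy ^ m : Module.End (ZMod 2) (Fn (2 ^ r) (2 ^ s))) F) ∈
      (Wd (d - m) : Submodule (ZMod 2) (Fn (2 ^ r) (2 ^ s))) := by
  obtain ⟨-, -, -, -, -, -, hdy, -⟩ := h0 r s
  induction m with
  | zero =>
    intro F hF
    rw [pow_zero, Nat.cast_zero, sub_zero]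
    exact hF
  | succ m ih =>
    intro F hF
    rw [pow_succ', Module.End.mul_apply]
    have h1 := hdy _ _ (ih hF)
    have h2 : d - m - 1 = d - ((m + 1 : ℕ) : ℤ) := by push_cast; ring
    rwa [h2] at h1

/-- the part in the variable `y` -/
private theorem part_y (h0 : StLow0) (hP : StPrd) (r s k : ℕ) (hk : 1 ≤ k)
    (t : ZMod (2 ^ s) → ZMod (2 ^ s))
    (ht : ∀ (i : ℕ) (y y' : ZMod (2 ^ s)), (2 : ZMod (2 ^ s)) ^ i ∣ y - y' →
      (2 : ZMod (2 ^ s)) ^ i ∣ t y - t y') (d : ℤ) (F : Fn (2 ^ r) (2 ^ s))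
    (hF : F ∈ (Wd d : Submodule (ZMod 2) (Fn (2 ^ r) (2 ^ s)))) :
    (fun x y => F x (y + 2 ^ k * t y) + F x y) ∈
        (Wd (d - (2 ^ k - 1)) : Submodule (ZMod 2) (Fn (2 ^ r) (2 ^ s))) ∧
      (k = 2 → (∀ y, (2 : ZMod (2 ^ s)) ∣ t y - 1) → (fun x y => F x (y + 4 * t y) + F x y) ∈
        (Wd (d - 4) : Submodule (ZMod 2) (Fn (2 ^ r) (2 ^ s)))) := by
  obtain ⟨-, -, -, hmono, -⟩ := h0 r s
  obtain ⟨n, hn⟩ : ∃ n, 2 ^ s = n + 1 := ⟨2 ^ s - 1, by have := Nat.one_le_two_pow (n := s); omega⟩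
  -- the expansion
  have hexp : ∀ k : ℕ, (fun x y => F x (y + 2 ^ k * t y) + F x y) =
      ∑ m ∈ Finset.range n, (fun (x : ZMod (2 ^ r)) (y : ZMod (2 ^ s)) =>
        (((t y).val.choose (m + 1) : ℕ) : ZMod 2) *
        ((dy ^ (2 ^ k * (m + 1)) : Module.End (ZMod 2) (Fn (2 ^ r) (2 ^ s))) F) x y) := by
    intro k
    funext x y
    rw [Finset.sum_apply, Finset.sum_apply, expand k (t y) F x y]
    have h1 : Finset.range (2 ^ s) = Finset.range (n + 1) := by rw [hn]
    rw [h1, Finset.sum_range_succ']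
    have h2 : ((dy ^ (2 ^ k * 0) : Module.End (ZMod 2) (Fn (2 ^ r) (2 ^ s))) F) x y = F x y := by
      rw [mul_zero, pow_zero]
      rfl
    rw [h2, Nat.choose_zero_right, Nat.cast_one, one_mul, add_assoc,
      CharTwo.add_self_eq_zero (F x y), add_zero]
  -- the terms
  have hterm : ∀ k m : ℕ, m < n → (fun (x : ZMod (2 ^ r)) (y : ZMod (2 ^ s)) =>
        (((t y).val.choose (m + 1) : ℕ) : ZMod 2) *
        ((dy ^ (2 ^ k * (m + 1)) : Module.End (ZMod 2) (Fn (2 ^ r) (2 ^ s))) F) x y) ∈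
      (Wd (2 * ((m + 1 : ℕ) : ℤ) - 1 + (d - ((2 ^ k * (m + 1) : ℕ) : ℤ))) :
        Submodule (ZMod 2) (Fn (2 ^ r) (2 ^ s))) := by
    intro k m hm
    exact hP r s _ _ _ _ (coef_mem t ht (m + 1) (by omega) (by omega))
      (dy_pow_mem h0 (2 ^ k * (m + 1)) hF)
  constructor
  · rw [hexp k]
    refine Submodule.sum_mem _ fun m hm => ?_
    refine hmono _ _ ?_ (hterm k m (Finset.mem_range.1 hm))
    push_cast
    have h1 : (2 : ℤ) ≤ 2 ^ k := by
      calc (2 : ℤ) = 2 ^ 1 := (pow_one 2).symm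
        _ ≤ 2 ^ k := pow_le_pow_right₀ (by norm_num) hk
    have h2 : (0 : ℤ) ≤ (m : ℤ) * (2 ^ k - 2) := mul_nonneg (by omega) (by linarith)
    nlinarith [h2]
  · intro hk2 hodd
    have h4 : (fun x y => F x (y + 4 * t y) + F x y) =
        (fun x y => F x (y + 2 ^ 2 * t y) + F x y) := by
      funext x y
      norm_num
    rw [h4, hexp 2]
    refine Submodule.sum_mem _ fun m hm => ?_
    rcases Nat.eq_zero_or_pos m with h5 | h5
    · rw [h5]
      have h6 : (fun (x : ZMod (2 ^ r)) (y : ZMod (2 ^ s)) =>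
          (((t y).val.choose (0 + 1) : ℕ) : ZMod 2) *
          ((dy ^ (2 ^ 2 * (0 + 1)) : Module.End (ZMod 2) (Fn (2 ^ r) (2 ^ s))) F) x y) =
          (dy ^ 4 : Module.End (ZMod 2) (Fn (2 ^ r) (2 ^ s))) F := by
        funext x y
        have hs1 : 1 ≤ s := by
          by_contra hcon
          have : s = 0 := by omega
          rw [this] at hn
          have := Finset.mem_range.1 hm
          omega
        have h7 := val_mod hs1 (i := 1) (a := t y) (b := 1) (by rw [pow_one]; exact hodd y)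
        have : Fact (1 < 2 ^ s) := ⟨Nat.one_lt_pow (by omega) (by norm_num)⟩
        rw [ZMod.val_one] at h7
        have h8 : (((t y).val.choose (0 + 1) : ℕ) : ZMod 2) = 1 := by
          rw [choose_mod (i := 1) (by norm_num) h7]
          simp
        have h9 : 2 ^ 2 * (0 + 1) = 4 := by norm_num
        rw [h8, one_mul, h9]
      rw [h6]
      exact dy_pow_mem h0 4 hF
    · refine hmono _ _ ?_ (hterm 2 m (Finset.mem_range.1 hm))
      push_cast
      have h6 : (1 : ℤ) ≤ m := by exact_mod_cast h5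
      linarith

theorem hSub (hLow0 : StLow0) (hPrd : StPrd) : StSub := by
  intro r s k hk
  constructor
  · intro t ht d F hF
    exact part_y hLow0 hPrd r s k hk t ht d F hF
  · intro t ht d F hF
    obtain ⟨h1, h2⟩ := part_y hLow0 hPrd s r k hk t ht d (sw F) (sw_mem hLow0 hF)
    exact ⟨sw_mem hLow0 h1, fun hk2 hodd => sw_mem hLow0 (h2 hk2 hodd)⟩

end Pool.Agent.Helper10.CV
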